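import Mathlib

/-!
# Circumradii of Minkowski sums with respect to `ℓ_p` balls, `p > 2`

The posed inequality
`R(K₁ + ⋯ + K_j, B_p) ≥ ‖(R(K₁, B_p), …, R(K_j, B_p))‖_p`, `p ∈ (2, ∞)`,
is false.  We show more: it fails for every real `p > 2`, for every number `j ≥ 2` of summands,
and in every sufficiently large dimension.

Idea.  Index `N * N` of the coordinates by pairs `(i, j)`.  Let `K₁` be the convex hull of the `N`
indicator vectors `x_k(i, j) = [i = k]` and `K₂` that of the `N` vectors `y_l(i, j) = [j = l]`.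
Averaging over the vertices gives `R(K₁)^p, R(K₂)^p ≥ N * min_c (|1 - c|^p + (N - 1) |c|^p)`, while
`R(K₁ + K₂)^p ≤ |2 - c|^p + 2 (N - 1) |1 - c|^p + (N - 1)^2 |c|^p` for every `c` (take the centre
constant equal to `c` on the array).  In other words, the `p`-th moment about the best centre is
not superadditive over independent random variables when `p > 2`: with `ε = (N - 1)^(-1/(p-1))`
and `c = ε` the second quantity is smaller than twice the first one as soon as
`2^p ε^(p-2) + 2 p^2 ε < 1`, which holds for all large `N` because `p > 2`.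
-/

set_option autoImplicit false

open scoped Pointwise

namespace Pool.Agent.Results.MP_a85856_gt.SuperadditivityFails

/-- The `ℓ_p` norm `(|x_1|^p + ⋯ + |x_m|^p)^(1/p)` of a real vector. -/
noncomputable def lpNorm {m : ℕ} (p : ℝ) (x : Fin m → ℝ) : ℝ := (∑ i, |x i| ^ p) ^ (1 / p)

/-- The `ℓ_p` unit ball of `ℝ^n`. -/
def lpBall (n : ℕ) (p : ℝ) : Set (Fin n → ℝ) := {x | lpNorm p x ≤ 1}

/-- The circumradius `R(K, C)`: the least `r ≥ 0` such that `K ⊆ t + r C` for some `t`. -/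
noncomputable def circumradius {n : ℕ} (K C : Set (Fin n → ℝ)) : ℝ :=
  sInf {r : ℝ | 0 ≤ r ∧ ∃ t : Fin n → ℝ, K ⊆ {t} + r • C}

/-! ### One-dimensional inequalities -/

lemma one_sub_rpow_le {p : ℝ} (hp : 1 ≤ p) {c : ℝ} (h0 : 0 ≤ c) (h1 : c ≤ 1) :
    (1 - c) ^ p ≤ 1 - p * c + p ^ 2 * c ^ 2 := by
  have hb : 1 + p * c ≤ (1 + c) ^ p := one_add_mul_self_le_rpow_one_add (by linarith) hp
  have hpc : 0 ≤ p * c := by positivity
  have hprod : (1 - c) ^ p * (1 + c) ^ p ≤ 1 := by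
    rw [← Real.mul_rpow (by linarith) (by linarith)]
    apply Real.rpow_le_one
    · apply mul_nonneg <;> linarith
    · nlinarith
    · linarith
  have hx0 : 0 ≤ (1 - c) ^ p := Real.rpow_nonneg (by linarith) _
  have h2 : (1 - c) ^ p * (1 + p * c) ≤ 1 :=
    le_trans (mul_le_mul_of_nonneg_left hb hx0) hprod
  have h3 : (1 : ℝ) ≤ (1 - p * c + p ^ 2 * c ^ 2) * (1 + p * c) := by
    nlinarith [mul_nonneg hpc (mul_nonneg hpc hpc)]
  have h4 : 0 < 1 + p * c := by linarith
  exact le_of_mul_le_mul_right (le_trans h2 h3) h4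

lemma one_sub_le_abs_rpow {p : ℝ} (hp : 1 ≤ p) (x : ℝ) : 1 - p * x ≤ |1 - x| ^ p := by
  rcases le_or_gt x 1 with h | h
  · rw [abs_of_nonneg (by linarith)]
    have := one_add_mul_self_le_rpow_one_add (s := -x) (by linarith) hp
    have e : (1 : ℝ) - x = 1 + -x := by ring
    rw [e]
    linarith
  · have : 0 ≤ |1 - x| ^ p := by positivity
    nlinarith

lemma tangent {p : ℝ} (hp : 1 ≤ p) {M ε : ℝ} (hε : 0 < ε) (hM : M * ε ^ p = ε) (x : ℝ) :
    p * |x| - (p - 1) * ε ≤ M * |x| ^ p := by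
  have hx : |x| = ε * (|x| / ε) := by field_simp
  have h1 : M * |x| ^ p = ε * (|x| / ε) ^ p := by
    conv_lhs => rw [hx]
    rw [Real.mul_rpow hε.le (by positivity), ← mul_assoc, hM]
  have h2 : 1 + p * (|x| / ε - 1) ≤ (1 + (|x| / ε - 1)) ^ p :=
    one_add_mul_self_le_rpow_one_add (by
      have : 0 ≤ |x| / ε := by positivity
      linarith) hp
  have h3 : (1 + (|x| / ε - 1)) = |x| / ε := by ring
  rw [h3] at h2
  rw [h1]
  have h4 := mul_le_mul_of_nonneg_left h2 hε.le
  have h5 : ε * (1 + p * (|x| / ε - 1)) = p * |x| - (p - 1) * ε := by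
    field_simp
    ring
  linarith

lemma coord_lower {p : ℝ} (hp : 1 ≤ p) {M ε : ℝ} (hε : 0 < ε) (hM : M * ε ^ p = ε) (x : ℝ) :
    1 - (p - 1) * ε ≤ |1 - x| ^ p + M * |x| ^ p := by
  have h1 := one_sub_le_abs_rpow hp x
  have h2 := tangent hp hε hM x
  have h3 : x ≤ |x| := le_abs_self x
  nlinarith

/-! ### Membership in translated scaled `ℓ_p` balls -/

lemma sum_le_one_of_mem {n : ℕ} {p : ℝ} (hp : 0 < p) {y : Fin n → ℝ} (hy : y ∈ lpBall n p) :
    ∑ i, |y i| ^ p ≤ 1 := by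
  have h0 : 0 ≤ ∑ i, |y i| ^ p := Finset.sum_nonneg fun i _ => by positivity
  have h1 : (∑ i, |y i| ^ p) ^ (1 / p) ≤ 1 := hy
  have h2 : ((∑ i, |y i| ^ p) ^ (1 / p)) ^ p ≤ 1 :=
    Real.rpow_le_one (Real.rpow_nonneg h0 _) h1 hp.le
  rwa [← Real.rpow_mul h0, one_div, inv_mul_cancel₀ hp.ne', Real.rpow_one] at h2

lemma sum_le_of_mem {n : ℕ} {p : ℝ} (hp : 0 < p) {r : ℝ} (hr : 0 ≤ r) {t x : Fin n → ℝ}
    (hx : x ∈ ({t} : Set (Fin n → ℝ)) + r • lpBall n p) :
    ∑ i, |x i - t i| ^ p ≤ r ^ p := by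
  rw [Set.singleton_add, Set.mem_image] at hx
  obtain ⟨z, hz, rfl⟩ := hx
  obtain ⟨y, hy, rfl⟩ := hz
  have h1 := sum_le_one_of_mem hp hy
  have h2 : ∀ i, |(t + r • y) i - t i| ^ p = r ^ p * |y i| ^ p := by
    intro i
    simp only [Pi.add_apply, Pi.smul_apply, smul_eq_mul, add_sub_cancel_left]
    rw [abs_mul, abs_of_nonneg hr, Real.mul_rpow hr (abs_nonneg _)]
  calc ∑ i, |(t + r • y) i - t i| ^ p = ∑ i, r ^ p * |y i| ^ p :=
        Finset.sum_congr rfl fun i _ => h2 i
    _ = r ^ p * ∑ i, |y i| ^ p := by rw [Finset.mul_sum]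
    _ ≤ r ^ p * 1 := mul_le_mul_of_nonneg_left h1 (Real.rpow_nonneg hr _)
    _ = r ^ p := mul_one _

lemma mem_of_sum_le {n : ℕ} {p : ℝ} (hp : 0 < p) {r : ℝ} (hr : 0 < r) {t x : Fin n → ℝ}
    (hx : ∑ i, |x i - t i| ^ p ≤ r ^ p) :
    x ∈ ({t} : Set (Fin n → ℝ)) + r • lpBall n p := by
  rw [Set.singleton_add, Set.mem_image]
  refine ⟨x - t, ?_, by simp⟩
  rw [Set.mem_smul_set]
  refine ⟨r⁻¹ • (x - t), ?_, by rw [smul_smul, mul_inv_cancel₀ hr.ne', one_smul]⟩
  have h2 : ∀ i, |(r⁻¹ • (x - t)) i| ^ p = (r ^ p)⁻¹ * |x i - t i| ^ p := by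
    intro i
    simp only [Pi.sub_apply, Pi.smul_apply, smul_eq_mul]
    rw [abs_mul, abs_of_nonneg (inv_nonneg.2 hr.le), Real.mul_rpow (inv_nonneg.2 hr.le)
      (abs_nonneg _), Real.inv_rpow hr.le]
  have h3 : ∑ i, |(r⁻¹ • (x - t)) i| ^ p ≤ 1 := by
    calc ∑ i, |(r⁻¹ • (x - t)) i| ^ p = ∑ i, (r ^ p)⁻¹ * |x i - t i| ^ p :=
          Finset.sum_congr rfl fun i _ => h2 i
      _ = (r ^ p)⁻¹ * ∑ i, |x i - t i| ^ p := by rw [Finset.mul_sum]
      _ ≤ (r ^ p)⁻¹ * r ^ p := mul_le_mul_of_nonneg_left hx (by positivity)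
      _ = 1 := inv_mul_cancel₀ (by positivity)
  exact Real.rpow_le_one (Finset.sum_nonneg fun i _ => by positivity) h3 (by positivity)

lemma convex_sublevel {n : ℕ} {p : ℝ} (hp : 1 ≤ p) (t : Fin n → ℝ) (s : ℝ) :
    Convex ℝ {x : Fin n → ℝ | ∑ i, |x i - t i| ^ p ≤ s} := by
  have hconv : ∀ i, ConvexOn ℝ Set.univ (fun x : Fin n → ℝ => |x i - t i| ^ p) := by
    intro i
    refine ⟨convex_univ, fun x _ y _ a b ha hb hab => ?_⟩
    have h1 : |(a • x + b • y) i - t i| ≤ a * |x i - t i| + b * |y i - t i| := by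
      have e : (a • x + b • y) i - t i = a * (x i - t i) + b * (y i - t i) := by
        simp only [Pi.add_apply, Pi.smul_apply, smul_eq_mul]
        have : t i = (a + b) * t i := by rw [hab, one_mul]
        linear_combination -this
      rw [e]
      refine (abs_add_le _ _).trans ?_
      rw [abs_mul, abs_mul, abs_of_nonneg ha, abs_of_nonneg hb]
    have h2 := (convexOn_rpow hp).2 (Set.mem_Ici.2 (abs_nonneg (x i - t i)))
      (Set.mem_Ici.2 (abs_nonneg (y i - t i))) ha hb hab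
    exact (Real.rpow_le_rpow (abs_nonneg _) h1 (by linarith)).trans h2
  have hsum : ConvexOn ℝ Set.univ (fun x : Fin n → ℝ => ∑ i, |x i - t i| ^ p) := by
    refine ⟨convex_univ, fun x _ y _ a b ha hb hab => ?_⟩
    simp only [smul_eq_mul, Finset.mul_sum]
    rw [← Finset.sum_add_distrib]
    exact Finset.sum_le_sum fun i _ => (hconv i).2 (Set.mem_univ x) (Set.mem_univ y) ha hb hab
  have := hsum.convex_le s
  simpa using this

/-! ### The two bodies -/

/-- The vertex `k` of the body attached to a coordinate map `π`: the indicator of `π = k`, placed in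
`ℝ^n` through the embedding `e` and extended by `0`. -/
noncomputable def vert {n N : ℕ} (e : Fin N × Fin N → Fin n) (π : Fin N × Fin N → Fin N)
    (k : Fin N) : Fin n → ℝ :=
  Function.extend e (fun q => if π q = k then (1 : ℝ) else 0) 0

/-- The convex hull of the vertices `vert e π k`. -/
noncomputable def body {n N : ℕ} [NeZero N] (e : Fin N × Fin N → Fin n)
    (π : Fin N × Fin N → Fin N) : ConvexBody (Fin n → ℝ) where
  carrier := convexHull ℝ (Set.range (vert e π))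
  convex' := convex_convexHull ℝ _
  isCompact' := (Set.finite_range _).isCompact_convexHull ℝ
  nonempty' := (Set.range_nonempty _).convexHull

lemma sum_ite_fin {N : ℕ} (k : Fin N) (A B : ℝ) :
    ∑ i : Fin N, (if i = k then A else B) = A + (N - 1) * B := by
  have h : ∀ i : Fin N, (if i = k then A else B) = B + (if i = k then A - B else 0) := by
    intro i; split_ifs <;> ring
  rw [Finset.sum_congr rfl fun i _ => h i, Finset.sum_add_distrib]
  simp
  ring

lemma lower_bound {n N : ℕ} (hN : 0 < N) {p : ℝ} (hp : 1 ≤ p) {ε : ℝ} (hε : 0 < ε)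
    (hM : ((N : ℝ) - 1) * ε ^ p = ε) (e : Fin N × Fin N → Fin n) (he : Function.Injective e)
    (π : Fin N × Fin N → Fin N) {r : ℝ} (hr : 0 ≤ r) {t : Fin n → ℝ}
    (hK : convexHull ℝ (Set.range (vert e π)) ⊆ {t} + r • lpBall n p) :
    N * (1 - (p - 1) * ε) ≤ r ^ p := by
  have hN' : (0 : ℝ) < N := by exact_mod_cast hN
  have h1 : ∀ k : Fin N, ∑ q : Fin N × Fin N, |(if π q = k then (1 : ℝ) else 0) - t (e q)| ^ p
      ≤ r ^ p := by
    intro k
    have hmem : vert e π k ∈ ({t} : Set (Fin n → ℝ)) + r • lpBall n p :=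
      hK (subset_convexHull ℝ _ ⟨k, rfl⟩)
    refine le_trans ?_ (sum_le_of_mem (by linarith) hr hmem)
    have hmap : ∑ q : Fin N × Fin N, |(if π q = k then (1 : ℝ) else 0) - t (e q)| ^ p =
        ∑ a ∈ Finset.univ.map ⟨e, he⟩, |vert e π k a - t a| ^ p := by
      rw [Finset.sum_map]
      refine Finset.sum_congr rfl fun q _ => ?_
      simp only [Function.Embedding.coeFn_mk, vert, he.extend_apply]
    rw [hmap]
    exact Finset.sum_le_univ_sum_of_nonneg fun a => by positivity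
  have h2 : ∑ k : Fin N, ∑ q : Fin N × Fin N,
      |(if π q = k then (1 : ℝ) else 0) - t (e q)| ^ p ≤ N * r ^ p := by
    calc _ ≤ ∑ _k : Fin N, r ^ p := Finset.sum_le_sum fun k _ => h1 k
      _ = N * r ^ p := by simp
  have h3 : ∑ k : Fin N, ∑ q : Fin N × Fin N,
      |(if π q = k then (1 : ℝ) else 0) - t (e q)| ^ p
      = ∑ q : Fin N × Fin N, (|1 - t (e q)| ^ p + (N - 1) * |t (e q)| ^ p) := by
    rw [Finset.sum_comm]
    refine Finset.sum_congr rfl fun q _ => ?_
    rw [← sum_ite_fin (π q)]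
    refine Finset.sum_congr rfl fun k _ => ?_
    by_cases h : π q = k
    · simp [h]
    · have h' : ¬ k = π q := fun h'' => h h''.symm
      simp [h, h']
  have h4 : (N : ℝ) * (N * (1 - (p - 1) * ε)) ≤ N * r ^ p := by
    calc (N : ℝ) * (N * (1 - (p - 1) * ε))
        = ∑ _q : Fin N × Fin N, (1 - (p - 1) * ε) := by
          simp [Finset.sum_const, Finset.card_univ, Fintype.card_prod]
          ring
      _ ≤ ∑ q : Fin N × Fin N, (|1 - t (e q)| ^ p + (N - 1) * |t (e q)| ^ p) :=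
          Finset.sum_le_sum fun q _ => coord_lower hp hε hM _
      _ ≤ N * r ^ p := by rw [← h3]; exact h2
  exact le_of_mul_le_mul_left h4 hN'

lemma bounded_mem {n : ℕ} {p : ℝ} (hp : 1 ≤ p) (K : ConvexBody (Fin n → ℝ)) :
    {r : ℝ | 0 ≤ r ∧ ∃ t : Fin n → ℝ, (K : Set (Fin n → ℝ)) ⊆ {t} + r • lpBall n p}.Nonempty := by
  have hcont : ContinuousOn (fun x : Fin n → ℝ => ∑ i, |x i| ^ p) (K : Set (Fin n → ℝ)) := by
    apply Continuous.continuousOn
    refine continuous_finsetSum _ fun i _ => ?_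
    exact (continuous_abs.comp (continuous_apply i)).rpow_const fun x => Or.inr (by linarith)
  obtain ⟨x₀, -, hx₀⟩ := K.isCompact.exists_isMaxOn K.nonempty hcont
  set S := ∑ i, |x₀ i| ^ p with hS
  have hS0 : 0 ≤ S := Finset.sum_nonneg fun i _ => by positivity
  have hp0 : p ≠ 0 := by linarith
  refine ⟨(S + 1) ^ (1 / p), by positivity, 0, fun x hx => ?_⟩
  apply mem_of_sum_le (by linarith) (by positivity)
  rw [← Real.rpow_mul (by positivity), one_div, inv_mul_cancel₀ hp0, Real.rpow_one]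
  have : ∑ i, |x i| ^ p ≤ S := hx₀ hx
  simp only [Pi.zero_apply, sub_zero]
  linarith

lemma circumradius_nonneg {n : ℕ} (K C : Set (Fin n → ℝ)) : 0 ≤ circumradius K C :=
  Real.sInf_nonneg fun _ hr => hr.1

/-- Lower bound for the circumradius of each of the two bodies. -/
lemma circumradius_body_lower {n N : ℕ} [NeZero N] {p : ℝ} (hp : 1 ≤ p) {ε : ℝ}
    (hε : 0 < ε) (hM : ((N : ℝ) - 1) * ε ^ p = ε) (hε1 : 0 ≤ 1 - (p - 1) * ε)
    (e : Fin N × Fin N → Fin n) (he : Function.Injective e) (π : Fin N × Fin N → Fin N) :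
    N * (1 - (p - 1) * ε) ≤ circumradius (body e π : Set (Fin n → ℝ)) (lpBall n p) ^ p := by
  have hp0 : 0 < p := by linarith
  set W := (N : ℝ) * (1 - (p - 1) * ε) with hW
  have hW0 : 0 ≤ W := by positivity
  have h1 : W ^ (1 / p) ≤ circumradius (body e π : Set (Fin n → ℝ)) (lpBall n p) := by
    apply le_csInf (bounded_mem hp (body e π))
    rintro r ⟨hr, t, ht⟩
    have h2 : W ≤ r ^ p := lower_bound (NeZero.pos N) hp hε hM e he π hr ht
    calc W ^ (1 / p) ≤ (r ^ p) ^ (1 / p) := Real.rpow_le_rpow hW0 h2 (by positivity)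
      _ = r := by rw [← Real.rpow_mul hr, mul_one_div, div_self hp0.ne', Real.rpow_one]
  calc W = (W ^ (1 / p)) ^ p := by
        rw [← Real.rpow_mul hW0, one_div, inv_mul_cancel₀ hp0.ne', Real.rpow_one]
    _ ≤ _ := Real.rpow_le_rpow (by positivity) h1 hp0.le

/-- Upper bound for the circumradius of the sum of the two bodies. -/
lemma circumradius_sum_upper {n N : ℕ} [NeZero N] {p : ℝ} (hp : 1 ≤ p) {c : ℝ} (hc0 : 0 < c)
    (hc1 : c ≤ 1) (e : Fin N × Fin N → Fin n) (he : Function.Injective e) :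
    circumradius ((body e Prod.fst + body e Prod.snd : ConvexBody (Fin n → ℝ)) :
        Set (Fin n → ℝ)) (lpBall n p) ≤
      ((2 - c) ^ p + 2 * ((N : ℝ) - 1) * (1 - c) ^ p + ((N : ℝ) - 1) ^ 2 * c ^ p) ^ (1 / p) := by
  have hp0 : 0 < p := by linarith
  have hN1 : (1 : ℝ) ≤ N := by exact_mod_cast NeZero.pos N
  set U := (2 - c) ^ p + 2 * ((N : ℝ) - 1) * (1 - c) ^ p + ((N : ℝ) - 1) ^ 2 * c ^ p with hU
  have hU0 : 0 < U := by
    have h1 : 0 < (2 - c) ^ p := Real.rpow_pos_of_pos (by linarith) _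
    have h2 : 0 ≤ 2 * ((N : ℝ) - 1) * (1 - c) ^ p :=
      mul_nonneg (by linarith) (Real.rpow_nonneg (by linarith) _)
    have h3 : 0 ≤ ((N : ℝ) - 1) ^ 2 * c ^ p := by positivity
    linarith
  apply csInf_le ⟨0, fun r hr => hr.1⟩
  refine ⟨by positivity, Function.extend e (fun _ => c) 0, ?_⟩
  have hsub : ((body e Prod.fst + body e Prod.snd : ConvexBody (Fin n → ℝ)) :
      Set (Fin n → ℝ)) ⊆
      {x : Fin n → ℝ | ∑ a, |x a - Function.extend e (fun _ => c) 0 a| ^ p ≤ U} := by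
    rw [ConvexBody.coe_add]
    change convexHull ℝ (Set.range (vert e Prod.fst)) + convexHull ℝ (Set.range (vert e Prod.snd))
      ⊆ _
    rw [← convexHull_add]
    apply convexHull_min _ (convex_sublevel hp _ _)
    rintro _ ⟨_, ⟨k, rfl⟩, _, ⟨l, rfl⟩, rfl⟩
    simp only [Set.mem_ofPred_eq]
    have hsum : ∑ a, |(vert e Prod.fst k + vert e Prod.snd l) a -
        Function.extend e (fun _ => c) 0 a| ^ p =
        ∑ q : Fin N × Fin N, |(if q.1 = k then (1 : ℝ) else 0) + (if q.2 = l then (1 : ℝ) else 0)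
          - c| ^ p := by
      symm
      apply Fintype.sum_of_injective e he
      · intro a ha
        have ha' : ¬ ∃ q, e q = a := fun ⟨q, hq⟩ => ha ⟨q, hq⟩
        simp only [vert, Pi.add_apply, Function.extend_apply' _ _ _ ha', Pi.zero_apply]
        simp [hp0.ne']
      · intro q
        simp only [vert, Pi.add_apply, he.extend_apply]
    change ∑ a, |(vert e Prod.fst k + vert e Prod.snd l) a -
        Function.extend e (fun _ => c) 0 a| ^ p ≤ U
    rw [hsum, Fintype.sum_prod_type]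
    have hin : ∀ i : Fin N, ∑ j : Fin N, |(if i = k then (1 : ℝ) else 0) +
        (if j = l then (1 : ℝ) else 0) - c| ^ p =
        if i = k then (2 - c) ^ p + (N - 1) * (1 - c) ^ p
          else (1 - c) ^ p + (N - 1) * c ^ p := by
      intro i
      by_cases hi : i = k
      · simp only [hi, if_true]
        rw [← sum_ite_fin l]
        refine Finset.sum_congr rfl fun j _ => ?_
        by_cases hj : j = l
        · simp only [hj, if_true]
          rw [abs_of_nonneg (by linarith)]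
          norm_num
        · simp only [hj, if_false]
          rw [abs_of_nonneg (by linarith)]
          norm_num
      · simp only [hi, if_false]
        rw [← sum_ite_fin l]
        refine Finset.sum_congr rfl fun j _ => ?_
        by_cases hj : j = l
        · simp only [hj, if_true]
          rw [abs_of_nonneg (by linarith)]
          norm_num
        · simp only [hj, if_false]
          rw [abs_of_nonpos (by linarith)]
          norm_num
    rw [Finset.sum_congr rfl fun i _ => hin i, sum_ite_fin k, hU]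
    apply le_of_eq
    ring
  intro x hx
  apply mem_of_sum_le hp0 (by positivity)
  rw [← Real.rpow_mul hU0.le, one_div, inv_mul_cancel₀ hp0.ne', Real.rpow_one]
  exact hsub hx

/-! ### Choice of the parameters -/

lemma exists_param {p : ℝ} (hp : 2 < p) : ∃ N : ℕ, 2 ≤ N ∧ ∃ ε : ℝ, 0 < ε ∧ ε ≤ 1 ∧
    ((N : ℝ) - 1) * ε ^ p = ε ∧ 0 ≤ 1 - (p - 1) * ε ∧
    (2 - ε) ^ p + 2 * ((N : ℝ) - 1) * (1 - ε) ^ p + ((N : ℝ) - 1) ^ 2 * ε ^ p <
      2 * (N * (1 - (p - 1) * ε)) := by
  have hp1 : 0 < p - 1 := by linarith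
  have ht : Filter.Tendsto (fun M : ℕ => (M : ℝ) ^ (-(1 / (p - 1)))) Filter.atTop (nhds 0) :=
    (tendsto_rpow_neg_atTop (by positivity)).comp tendsto_natCast_atTop_atTop
  have ht2 : Filter.Tendsto (fun ε : ℝ => 2 ^ p * ε ^ (p - 2) + 2 * p ^ 2 * ε) (nhds 0)
      (nhds (2 ^ p * (0 : ℝ) ^ (p - 2) + 2 * p ^ 2 * 0)) := by
    apply Filter.Tendsto.add
    · apply Filter.Tendsto.const_mul
      exact (Real.continuousAt_rpow_const 0 (p - 2) (Or.inr (by linarith))).tendsto
    · exact Filter.Tendsto.const_mul _ Filter.tendsto_id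
  rw [Real.zero_rpow (by linarith), mul_zero, mul_zero, add_zero] at ht2
  have ht3 := ht2.comp ht
  have e1 := ht3.eventually (gt_mem_nhds (show (0 : ℝ) < 1 by norm_num))
  have e2 := ht.eventually (gt_mem_nhds (show (0 : ℝ) < 1 by norm_num))
  obtain ⟨M, ⟨hM1, hM2⟩, hM3⟩ := ((e1.and e2).and (Filter.eventually_ge_atTop 1)).exists
  simp only [Function.comp_apply] at hM1
  have hMpos : (0 : ℝ) < M := by exact_mod_cast hM3
  set ε := (M : ℝ) ^ (-(1 / (p - 1))) with hε
  have hε0 : 0 < ε := Real.rpow_pos_of_pos hMpos _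
  have hεp1 : (M : ℝ) * ε ^ (p - 1) = 1 := by
    rw [hε, ← Real.rpow_mul hMpos.le]
    have : -(1 / (p - 1)) * (p - 1) = -1 := by field_simp
    rw [this, Real.rpow_neg_one, mul_inv_cancel₀ hMpos.ne']
  have hεp : (M : ℝ) * ε ^ p = ε := by
    have : ε ^ p = ε ^ (p - 1) * ε := by
      rw [← Real.rpow_add_one hε0.ne']
      congr 1
      ring
    rw [this, ← mul_assoc, hεp1, one_mul]
  have hεp2 : (M : ℝ) * ε * ε ^ (p - 2) = 1 := by
    have : ε * ε ^ (p - 2) = ε ^ (p - 1) := by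
      rw [mul_comm, ← Real.rpow_add_one hε0.ne']
      congr 1
      ring
    rw [mul_assoc, this, hεp1]
  refine ⟨M + 1, by omega, ε, hε0, hM2.le, ?_, ?_, ?_⟩
  · push_cast
    rw [add_sub_cancel_right]
    exact hεp
  · have h0 : 0 ≤ 2 ^ p * ε ^ (p - 2) := by positivity
    nlinarith [mul_pos (show (0:ℝ) < p by linarith) hε0]
  · push_cast
    rw [add_sub_cancel_right]
    have h1 : (2 - ε) ^ p ≤ 2 ^ p :=
      Real.rpow_le_rpow (by linarith) (by linarith) (by linarith)
    have h2 := one_sub_rpow_le (p := p) (by linarith) hε0.le hM2.le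
    have h3 : (M : ℝ) ^ 2 * ε ^ p = M * ε := by
      rw [pow_two, mul_assoc, hεp]
    have h4 : (M : ℝ) * ε * (2 ^ p * ε ^ (p - 2)) = 2 ^ p := by
      calc (M : ℝ) * ε * (2 ^ p * ε ^ (p - 2)) = 2 ^ p * (M * ε * ε ^ (p - 2)) := by ring
        _ = 2 ^ p := by rw [hεp2, mul_one]
    have h5 : (M : ℝ) * ε * (2 ^ p * ε ^ (p - 2) + 2 * p ^ 2 * ε) < M * ε * 1 :=
      mul_lt_mul_of_pos_left hM1 (by positivity)
    have h6 : 2 * (M : ℝ) * (1 - ε) ^ p ≤ 2 * M * (1 - p * ε + p ^ 2 * ε ^ 2) :=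
      mul_le_mul_of_nonneg_left h2 (by positivity)
    have h7 : 0 ≤ 1 - (p - 1) * ε := by
      have h0 : 0 ≤ 2 ^ p * ε ^ (p - 2) := by positivity
      nlinarith [mul_pos (show (0:ℝ) < p by linarith) hε0]
    rw [h3]
    nlinarith

/-- **The inequality fails for every `p > 2`.**  For every real `p > 2` and every `j ≥ 2`, in every
sufficiently large dimension `n` there are convex bodies `K₁, …, K_j` in `ℝ^n` with
`R(K₁ + ⋯ + K_j, B_p) < ‖(R(K₁, B_p), …, R(K_j, B_p))‖_p`. -/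
theorem result : ∀ p : ℝ, 2 < p → ∀ j : ℕ, 2 ≤ j → ∃ n₀ : ℕ, ∀ n : ℕ, n₀ ≤ n →
    ∃ K : Fin j → ConvexBody (Fin n → ℝ),
      circumradius (∑ i, K i : ConvexBody (Fin n → ℝ)) (lpBall n p) <
        lpNorm p (fun i => circumradius (K i) (lpBall n p)) := by
  intro p hp j hj
  obtain ⟨N, hN, ε, hε0, hε1, hM, hε2, hlt⟩ := exists_param hp
  have : NeZero N := ⟨by omega⟩
  refine ⟨N * N, fun n hn => ?_⟩
  let e : Fin N × Fin N → Fin n := fun q => Fin.castLE hn (finProdFinEquiv q)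
  have he : Function.Injective e := (Fin.castLE_injective hn).comp finProdFinEquiv.injective
  obtain ⟨m, rfl⟩ : ∃ m, j = m + 2 := ⟨j - 2, by omega⟩
  refine ⟨Fin.cons (body e Prod.fst) (Fin.cons (body e Prod.snd) fun _ => 0), ?_⟩
  have hp1 : 1 ≤ p := by linarith
  have hp0 : 0 < p := by linarith
  have hup := circumradius_sum_upper hp1 hε0 hε1 e he
  have hl1 := circumradius_body_lower hp1 hε0 hM hε2 e he Prod.fst
  have hl2 := circumradius_body_lower hp1 hε0 hM hε2 e he Prod.snd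
  have hsum : (∑ i, (Fin.cons (body e Prod.fst) (Fin.cons (body e Prod.snd) fun _ => 0) :
      Fin (m + 2) → ConvexBody (Fin n → ℝ)) i) = body e Prod.fst + body e Prod.snd := by
    rw [Fin.sum_univ_succ, Fin.sum_univ_succ]
    simp
  rw [hsum]
  refine lt_of_le_of_lt hup ?_
  unfold lpNorm
  have hbase : 0 ≤ (2 - ε) ^ p + 2 * ((N : ℝ) - 1) * (1 - ε) ^ p + ((N : ℝ) - 1) ^ 2 * ε ^ p := by
    have hN1 : (2 : ℝ) ≤ N := by exact_mod_cast hN
    have h1 : 0 ≤ (2 - ε) ^ p := Real.rpow_nonneg (by linarith) _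
    have h2 : 0 ≤ 2 * ((N : ℝ) - 1) * (1 - ε) ^ p :=
      mul_nonneg (by linarith) (Real.rpow_nonneg (by linarith) _)
    have h3 : 0 ≤ ((N : ℝ) - 1) ^ 2 * ε ^ p := by positivity
    linarith
  apply Real.rpow_lt_rpow hbase _ (by positivity)
  refine lt_of_lt_of_le hlt ?_
  rw [Fin.sum_univ_succ, Fin.sum_univ_succ]
  simp only [Fin.cons_zero, Fin.cons_succ]
  rw [abs_of_nonneg (circumradius_nonneg _ _), abs_of_nonneg (circumradius_nonneg _ _)]
  have h3 : 0 ≤ ∑ i : Fin m, |circumradius ((0 : ConvexBody (Fin n → ℝ)) : Set (Fin n → ℝ))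
      (lpBall n p)| ^ p := Finset.sum_nonneg fun i _ => by positivity
  linarith

end Pool.Agent.Results.MP_a85856_gt.SuperadditivityFails
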